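import Mathlib

/-!
# Parikh tree automata with reset are strictly more expressive than Parikh tree automata
-/

namespace Pool.Agent.Results.MP_78a33a_lc.ResetHelps

open Finset

/-! ### Automata -/

/-- Trees over a ranked alphabet. -/
inductive RTree (Γ : Type) (rk : Γ → ℕ) : Type
  | node (σ : Γ) (children : Fin (rk σ) → RTree Γ rk) : RTree Γ rk

/-- An `m`-PTAR. A transition `q → σ(q₁(e₁), …, q_k(e_k))` is the pair of `q` and `⟨σ, f⟩`, where
`f i` is the pair of the state and the increment; the increment `none` is the reset. -/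
structure PTAR (Γ : Type) (rk : Γ → ℕ) (m : ℕ) where
  Q : Type
  finQ : Finite Q
  start : Q
  Δ : Set (Q × (Σ σ : Γ, Fin (rk σ) → Q × Option (Fin m → ℕ)))
  finΔ : Δ.Finite
  C : Set (Fin m → ℕ)
  semilinear : IsSemilinearSet C

/-- The counters at a child. -/
def next {m : ℕ} (s : Fin m → ℕ) : Option (Fin m → ℕ) → (Fin m → ℕ)
  | none => 0
  | some e => s + e

variable {Γ : Type} {rk : Γ → ℕ} {m : ℕ}

/-- There is a run on the tree with the pair `(q, s)` at the root. -/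
def PTAR.Acc (A : PTAR Γ rk m) : RTree Γ rk → A.Q → (Fin m → ℕ) → Prop
  | .node σ ch, q, s => ∃ f : Fin (rk σ) → A.Q × Option (Fin m → ℕ), (q, ⟨σ, f⟩) ∈ A.Δ ∧
      (rk σ = 0 → s ∈ A.C) ∧ ∀ i, A.Acc (ch i) (f i).1 (next s (f i).2)

/-- The tree language of the automaton. -/
def PTAR.lang (A : PTAR Γ rk m) : Set (RTree Γ rk) := {ξ | A.Acc ξ A.start 0}

/-- No transition contains a reset. -/
def PTAR.IsPTA (A : PTAR Γ rk m) : Prop :=
  ∀ (q : A.Q) (σ : Γ) (f : Fin (rk σ) → A.Q × Option (Fin m → ℕ)), (q, ⟨σ, f⟩) ∈ A.Δ →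
    ∀ i, (f i).2 ≠ none

def PTARRecognizable (L : Set (RTree Γ rk)) : Prop :=
  ∃ m : ℕ, 1 ≤ m ∧ ∃ A : PTAR Γ rk m, A.lang = L

def PTARecognizable (L : Set (RTree Γ rk)) : Prop :=
  ∃ m : ℕ, 1 ≤ m ∧ ∃ A : PTAR Γ rk m, A.IsPTA ∧ A.lang = L

/-! ### Paths -/

section paths

variable {Q E : Type} (src tgt : E → Q) (ve : E → (Fin m → ℕ))

/-- `l` is a path from `p` to `q`. -/
def IsPath : Q → Q → List E → Prop
  | p, q, [] => p = q
  | p, q, x :: l => src x = p ∧ IsPath (tgt x) q l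

/-- the sum of the vectors -/
def vec (l : List E) : Fin m → ℕ := (l.map ve).sum

variable {src tgt ve}

lemma vec_append (l l' : List E) : vec ve (l ++ l') = vec ve l + vec ve l' := by
  simp [vec]

lemma vec_cons (x : E) (l : List E) : vec ve (x :: l) = ve x + vec ve l := by
  simp [vec]

lemma isPath_append {l l' : List E} : ∀ {p r : Q}, IsPath src tgt p r (l ++ l') ↔
    ∃ q, IsPath src tgt p q l ∧ IsPath src tgt q r l' := by
  induction l with
  | nil => intro p r; simp [IsPath]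
  | cons x l ih =>
    intro p r
    rw [List.cons_append]
    simp only [IsPath, ih]
    constructor
    · rintro ⟨h1, q, h2, h3⟩
      exact ⟨q, ⟨h1, h2⟩, h3⟩
    · rintro ⟨q, ⟨h1, h2⟩, h3⟩
      exact ⟨h1, q, h2, h3⟩

lemma split_sublist {x : E} {l : List E} : ∀ {l' : List E}, List.Sublist (x :: l) l' →
    ∃ g r, l' = g ++ x :: r ∧ List.Sublist l r := by
  intro l'
  induction l' with
  | nil => intro h; cases h
  | cons y l' ih =>
    intro h
    cases h with
    | cons _ h =>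
      obtain ⟨g, r, rfl, h2⟩ := ih h
      exact ⟨y :: g, r, rfl, h2⟩
    | cons_cons _ h => exact ⟨[], l', rfl, h⟩

lemma amalgam : ∀ (l l' l'' : List E) (p q : Q), IsPath src tgt p q l → IsPath src tgt p q l' →
    IsPath src tgt p q l'' → List.Sublist l l' → List.Sublist l l'' →
    ∃ l3, IsPath src tgt p q l3 ∧ List.Sublist l' l3 ∧
      vec ve l3 + vec ve l = vec ve l' + vec ve l'' ∧
      l3.length + l.length = l'.length + l''.length := by
  intro l
  induction l with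
  | nil =>
    intro l' l'' p q h h' h'' _ _
    obtain rfl : p = q := h
    refine ⟨l' ++ l'', isPath_append.mpr ⟨p, h', h''⟩, List.sublist_append_left _ _, ?_, ?_⟩
    · rw [vec_append]; simp [vec]
    · simp
  | cons x l ih =>
    intro l' l'' p q h h' h'' hs hs'
    obtain ⟨g', r', rfl, h1⟩ := split_sublist hs
    obtain ⟨g'', r'', rfl, h2⟩ := split_sublist hs'
    obtain ⟨hx, hl⟩ := h
    obtain ⟨q', h3, h3x, h4⟩ := isPath_append.mp h'
    obtain ⟨q'', h5, h5x, h6⟩ := isPath_append.mp h''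
    have e1 : q' = p := h3x.symm.trans hx
    have e2 : q'' = p := h5x.symm.trans hx
    subst e1
    subst e2
    obtain ⟨r3, h7, h8, h9, h10⟩ := ih r' r'' _ q hl h4 h6 h1 h2
    refine ⟨g' ++ (g'' ++ x :: r3), isPath_append.mpr ⟨_, h3, isPath_append.mpr ⟨_, h5, hx, h7⟩⟩,
      ?_, ?_, ?_⟩
    · exact List.Sublist.append_left ((List.Sublist.cons_cons x h8).trans
        (List.sublist_append_right _ _)) _
    · simp only [vec_append, vec_cons]
      calc vec ve g' + (vec ve g'' + (ve x + vec ve r3)) + (ve x + vec ve l)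
          = vec ve g' + vec ve g'' + ve x + ve x + (vec ve r3 + vec ve l) := by abel
        _ = _ := by rw [h9]; abel
    · simp only [List.length_append, List.length_cons]
      omega

variable (ve) in
/-- The increments (vector, length) of the paths that extend the path `l`. -/
def avail {p q : Q} {l : List E} (hl : IsPath src tgt p q l) :
    AddSubmonoid ((Fin m → ℕ) × ℕ) where
  carrier := {z | ∃ l', IsPath src tgt p q l' ∧ List.Sublist l l' ∧
    vec ve l' = vec ve l + z.1 ∧ l'.length = l.length + z.2}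
  zero_mem' := ⟨l, hl, List.Sublist.refl _, by simp, by simp⟩
  add_mem' := by
    rintro ⟨u, c⟩ ⟨u', c'⟩ ⟨l1, h1, h2, h3, h4⟩ ⟨l2, h5, h6, h7, h8⟩
    obtain ⟨l3, h9, h10, h11, h12⟩ := amalgam (ve := ve) l l1 l2 p q hl h1 h5 h2 h6
    refine ⟨l3, h9, h2.trans h10, ?_, ?_⟩
    · simp only at h3 h7 ⊢
      rw [h3, h7] at h11
      rw [Prod.fst_add]
      have : vec ve l3 + vec ve l = (vec ve l + (u + u')) + vec ve l := by
        rw [h11]; abel
      exact add_right_cancel this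
    · simp only [Prod.snd_add] at h4 h8 ⊢
      omega

lemma avail_mono {p q : Q} {l l1 : List E} (hl : IsPath src tgt p q l)
    (hl1 : IsPath src tgt p q l1) (h : List.Sublist l l1) : avail ve hl ≤ avail ve hl1 := by
  rintro ⟨u, c⟩ ⟨l2, h5, h6, h7, h8⟩
  obtain ⟨l3, h9, h10, h11, h12⟩ := amalgam (ve := ve) l l1 l2 p q hl hl1 h5 h h6
  refine ⟨l3, h9, h10, ?_, ?_⟩
  · simp only at h7 ⊢
    rw [h7] at h11
    have : vec ve l3 + vec ve l = (vec ve l1 + u) + vec ve l := by
      rw [h11]; abel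
    exact add_right_cancel this
  · simp only at h8 ⊢
    omega

lemma vec_sublist {l l' : List E} (h : List.Sublist l l') : vec ve l ≤ vec ve l' := by
  induction h with
  | slnil => exact le_rfl
  | cons x _ ih =>
    rw [vec_cons]
    exact ih.trans (le_add_of_nonneg_left (zero_le))
  | cons_cons x _ ih =>
    rw [vec_cons, vec_cons]
    exact add_le_add_right ih _

end paths

/-- Higman's lemma for lists over a finite alphabet. -/
lemma higman (E : Type) [Finite E] : WellQuasiOrdered (fun l l' : List E => List.Sublist l l') := by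
  have h := Set.PartiallyWellOrderedOn.partiallyWellOrderedOn_sublistForall₂ (Eq : E → E → Prop)
    (s := Set.univ) (Set.toFinite (Set.univ : Set E)).partiallyWellOrderedOn
  intro f
  obtain ⟨a, b, hab, h2⟩ := h.exists_lt (f := f) (by intro n x _; exact Set.mem_univ _)
  refine ⟨a, b, hab, ?_⟩
  obtain ⟨l, h3, h4⟩ := List.sublistForall₂_iff.mp h2
  rw [List.forall₂_eq_eq_eq] at h3
  rw [h3]
  exact h4

/-! ### Systems -/

/-- The data of a Parikh tree automaton without reset that are used by the trees in question. -/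
structure Sys (m : ℕ) where
  Q : Type
  A : Type
  B : Type
  K : Type
  ι : Type
  N : ℕ
  srcA : A → Q
  tgtA : A → Q
  vA : A → (Fin m → ℕ)
  srcB : B → Q
  tgtB : B → Q
  vB : B → (Fin m → ℕ)
  srcK : K → Q
  lK : K → Q
  rK : K → Q
  el : K → (Fin m → ℕ)
  er : K → (Fin m → ℕ)
  leafOK : Q → Prop
  base : ι → (Fin m → ℕ)
  f : ι → (Fin N → ℕ) →+ (Fin m → ℕ)

namespace Sys

variable (Y : Sys m)

/-- The data of a run at one level. -/
structure Lv where
  st : Y.Q
  fk : Y.K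
  fs : Y.Q
  cp : Y.ι
  w : List Y.A
  v : List Y.B
  lam : Fin Y.N → ℕ

variable {Y}

/-- the order on the data at one level -/
def Lv.le (a b : Y.Lv) : Prop :=
  (a.st = b.st ∧ a.fk = b.fk ∧ a.fs = b.fs ∧ a.cp = b.cp) ∧
    (List.Sublist a.w b.w ∧ (List.Sublist a.v b.v ∧ a.lam ≤ b.lam))

lemma Lv.le_refl (a : Y.Lv) : a.le a :=
  ⟨⟨rfl, rfl, rfl, rfl⟩, List.Sublist.refl _, List.Sublist.refl _, le_rfl⟩

lemma Lv.le_trans {a b c : Y.Lv} (h : a.le b) (h' : b.le c) : a.le c := by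
  obtain ⟨⟨h1, h2, h3, h4⟩, h5, h6, h7⟩ := h
  obtain ⟨⟨h1', h2', h3', h4'⟩, h5', h6', h7'⟩ := h'
  exact ⟨⟨h1.trans h1', h2.trans h2', h3.trans h3', h4.trans h4'⟩, h5.trans h5', h6.trans h6',
    _root_.le_trans h7 h7'⟩

/-- the vector on the spine before the level `i` -/
def S (R : ℕ → Y.Lv) (i : ℕ) : Fin m → ℕ :=
  ∑ j ∈ range i, (vec Y.vA (R j).w + Y.er (R j).fk)

/-- `R` is an accepting run with `k` levels. -/
def Valid (k : ℕ) (q0 : Y.Q) (R : ℕ → Y.Lv) : Prop :=
  (R 0).st = q0 ∧ (∀ i < k, IsPath Y.srcA Y.tgtA (R i).st (Y.srcK (R i).fk) (R i).w ∧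
    IsPath Y.srcB Y.tgtB (Y.lK (R i).fk) (R i).fs (R i).v ∧ Y.leafOK (R i).fs ∧
    (R (i + 1)).st = Y.rK (R i).fk ∧
    S R i + vec Y.vA (R i).w + Y.el (R i).fk + vec Y.vB (R i).v =
      Y.base (R i).cp + Y.f (R i).cp (R i).lam) ∧
  Y.leafOK (R k).st ∧ S R k = Y.base (R k).cp + Y.f (R k).cp (R k).lam

/-- the order on runs -/
def RLe (k : ℕ) (R R' : ℕ → Y.Lv) : Prop := ∀ i ≤ k, (R i).le (R' i)

lemma wqo_lv [Finite Y.Q] [Finite Y.K] [Finite Y.ι] [Finite Y.A] [Finite Y.B] :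
    WellQuasiOrdered (Lv.le : Y.Lv → Y.Lv → Prop) := by
  have h1 : WellQuasiOrdered (Eq : (Y.Q × Y.K × Y.Q × Y.ι) → _ → Prop) := Finite.wellQuasiOrdered _
  have h2 := higman Y.A
  have h3 := higman Y.B
  have h4 : WellQuasiOrdered ((· ≤ ·) : (Fin Y.N → ℕ) → (Fin Y.N → ℕ) → Prop) :=
    wellQuasiOrdered_le
  have i2 : IsPreorder (List Y.A) (fun l l' => List.Sublist l l') :=
    { refl := fun a => List.Sublist.refl a, trans := fun a b c h h' => h.trans h' }
  have i3 : IsPreorder (List Y.B) (fun l l' => List.Sublist l l') :=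
    { refl := fun a => List.Sublist.refl a, trans := fun a b c h h' => h.trans h' }
  have i1 : IsPreorder (Y.Q × Y.K × Y.Q × Y.ι) Eq :=
    { refl := fun a => rfl, trans := fun a b c h h' => h.trans h' }
  have h := h1.prod (h2.prod (h3.prod h4))
  intro s
  obtain ⟨a, b, hab, h5⟩ := h fun n => (((s n).st, (s n).fk, (s n).fs, (s n).cp), (s n).w,
    (s n).v, (s n).lam)
  refine ⟨a, b, hab, ?_⟩
  obtain ⟨h6, h7, h8, h9⟩ := h5
  simp only [Prod.mk.injEq] at h6
  exact ⟨h6, h7, h8, h9⟩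

lemma wqo_runs [Finite Y.Q] [Finite Y.K] [Finite Y.ι] [Finite Y.A] [Finite Y.B] (k : ℕ)
    (s : ℕ → (ℕ → Y.Lv)) : ∃ a b, a < b ∧ RLe k (s a) (s b) := by
  have : IsPreorder Y.Lv Lv.le :=
    { refl := Lv.le_refl, trans := fun _ _ _ => Lv.le_trans }
  have h := WellQuasiOrdered.pi (ι := Fin (k + 1)) (r := fun _ => (Lv.le : Y.Lv → Y.Lv → Prop))
    (fun _ => wqo_lv)
  obtain ⟨a, b, hab, h1⟩ := h fun n i => s n i
  exact ⟨a, b, hab, fun i hi => h1 ⟨i, by omega⟩⟩

/-- The level `i` can be pumped below the run `R`, without changing the later levels. -/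
def Pumpable (k : ℕ) (q0 : Y.Q) (R : ℕ → Y.Lv) (i : ℕ) : Prop :=
  ∃ R0 R1 : ℕ → Y.Lv, Valid k q0 R0 ∧ Valid k q0 R1 ∧ RLe k R0 R1 ∧ RLe k R0 R ∧
    (∀ l < k, (R0 l).w.length = (R0 l).v.length ∧ (R1 l).w.length = (R1 l).v.length) ∧
    (∀ l < k, i < l → (R1 l).w.length = (R0 l).w.length) ∧
    (R0 i).w.length < (R1 i).w.length

lemma exists_pumpable [Finite Y.Q] [Finite Y.K] [Finite Y.ι] [Finite Y.A] [Finite Y.B] (k : ℕ)
    (q0 : Y.Q) (h : ∀ n : ℕ → ℕ, ∃ R : ℕ → Y.Lv, Valid k q0 R ∧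
      ∀ l < k, (R l).w.length = n l ∧ (R l).v.length = n l) :
    ∀ j ≤ k, ∀ n : ℕ → ℕ, ∃ R : ℕ → Y.Lv, Valid k q0 R ∧
      (∀ l < k, (R l).w.length = (R l).v.length) ∧ (∀ l < k, j ≤ l → (R l).w.length = n l) ∧
      ∀ i < j, Pumpable k q0 R i := by
  intro j
  induction j with
  | zero =>
    intro _ n
    obtain ⟨R, h1, h2⟩ := h n
    exact ⟨R, h1, fun l hl => (h2 l hl).1.trans (h2 l hl).2.symm, fun l hl _ => (h2 l hl).1,
      fun i hi => by omega⟩
  | succ j ih =>
    intro hj n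
    choose s hs1 hs2 hs3 hs4 using fun c : ℕ => ih (by omega) (Function.update n j c)
    obtain ⟨a, b, hab, h1⟩ := wqo_runs k s
    refine ⟨s b, hs1 b, hs2 b, ?_, ?_⟩
    · intro l hl hjl
      rw [hs3 b l hl (by omega), Function.update_of_ne (by omega)]
    · intro i hi
      rcases Nat.lt_or_ge i j with hij | hij
      · exact hs4 b i hij
      · have : i = j := by omega
        subst this
        refine ⟨s a, s b, hs1 a, hs1 b, h1, h1, fun l hl => ⟨hs2 a l hl, hs2 b l hl⟩, ?_, ?_⟩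
        · intro l hl hil
          rw [hs3 b l hl (by omega), hs3 a l hl (by omega), Function.update_of_ne (by omega),
            Function.update_of_ne (by omega)]
        · rw [hs3 b i (by omega) le_rfl, hs3 a i (by omega) le_rfl, Function.update_self,
            Function.update_self]
          exact hab

/-- A linear dependence between `m + 1` vectors of length `m`. -/
lemma exists_dependence {m : ℕ} (σ : ℕ → Fin m → ℕ) : ∃ j < m + 1, ∃ D : ℕ, 1 ≤ D ∧
    ∃ β γ : ℕ → ℕ, D • σ j + ∑ i ∈ range j, β i • σ i = ∑ i ∈ range j, γ i • σ i := by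
  have h1 : ¬ LinearIndependent ℤ (fun (i : Fin (m + 1)) (x : Fin m) => (σ i x : ℤ)) := by
    intro h
    have := h.fintype_card_le_finrank
    simp at this
  obtain ⟨g, h2, i0, h3⟩ := Fintype.not_linearIndependent_iff.mp h1
  -- the last index with a nonzero coefficient
  obtain ⟨j, hj, hjmax⟩ : ∃ j : Fin (m + 1), g j ≠ 0 ∧ ∀ i, j < i → g i = 0 := by
    classical
    obtain ⟨j, hj, hmax⟩ := (univ.filter fun i => g i ≠ 0).exists_maximal ⟨i0, by simp [h3]⟩
    refine ⟨j, (mem_filter.mp hj).2, fun i hi => ?_⟩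
    by_contra h
    exact absurd (hmax (mem_filter.mpr ⟨mem_univ _, h⟩) hi.le) (not_le.mpr hi)
  -- wlog positive
  obtain ⟨c, hc1, hc2, hc3⟩ : ∃ c : ℕ → ℤ, 0 < c j ∧ (∀ i, (j : ℕ) < i → c i = 0) ∧
      ∀ x, ∑ i ∈ range (m + 1), c i * (σ i x : ℤ) = 0 := by
    have h4 : ∀ x, ∑ i : Fin (m + 1), g i * (σ i x : ℤ) = 0 := by
      intro x
      have := congrFun h2 x
      simpa using this
    have h5 : ∀ e : ℤ, ∀ x, ∑ i ∈ range (m + 1),
        (if h : i < m + 1 then e * g ⟨i, h⟩ else 0) * (σ i x : ℤ) = 0 := by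
      intro e x
      rw [Finset.sum_range]
      have : ∀ i : Fin (m + 1), (if h : (i : ℕ) < m + 1 then e * g ⟨i, h⟩ else 0) * (σ i x : ℤ) =
          e * (g i * (σ i x : ℤ)) := by
        intro i
        rw [dif_pos i.2]
        ring
      rw [Finset.sum_congr rfl fun i _ => this i, ← Finset.mul_sum, h4, mul_zero]
    have h6 : ∀ e : ℤ, ∀ i, (j : ℕ) < i → (if h : i < m + 1 then e * g ⟨i, h⟩ else 0) = 0 := by
      intro e i hi
      split_ifs with h
      · rw [hjmax ⟨i, h⟩ hi, mul_zero]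
      · rfl
    rcases lt_or_gt_of_ne hj with h | h
    · refine ⟨fun i => if h : i < m + 1 then (-1) * g ⟨i, h⟩ else 0, ?_, h6 (-1), h5 (-1)⟩
      simp only [j.2, dif_pos]
      simpa using h
    · refine ⟨fun i => if h : i < m + 1 then 1 * g ⟨i, h⟩ else 0, ?_, h6 1, h5 1⟩
      simp only [j.2, dif_pos]
      simpa using h
  refine ⟨j, j.2, (c j).toNat, by omega, fun i => (c i).toNat, fun i => (-c i).toNat, ?_⟩
  funext x
  simp only [Pi.add_apply, Finset.sum_apply, Pi.smul_apply, smul_eq_mul]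
  have h7 := hc3 x
  have h8 : ∑ i ∈ range (m + 1), c i * (σ i x : ℤ) =
      ∑ i ∈ range (j + 1), c i * (σ i x : ℤ) := by
    symm
    apply Finset.sum_subset
    · intro i hi
      simp only [Finset.mem_range] at hi ⊢
      omega
    · intro i _ hi
      simp only [Finset.mem_range] at hi
      rw [hc2 i (by omega), zero_mul]
  rw [h8, Finset.sum_range_succ] at h7
  have h9 : ∀ i, c i = ((c i).toNat : ℤ) - ((-c i).toNat : ℤ) := by intro i; omega
  have h10 : ∑ i ∈ range j, c i * (σ i x : ℤ) = ∑ i ∈ range j, ((c i).toNat : ℤ) * (σ i x : ℤ) -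
      ∑ i ∈ range j, ((-c i).toNat : ℤ) * (σ i x : ℤ) := by
    rw [← Finset.sum_sub_distrib]
    refine Finset.sum_congr rfl fun i _ => ?_
    rw [← sub_mul, ← h9]
  have h11 : ((c j).toNat : ℤ) = c j := by omega
  zify
  rw [h11]
  rw [h10] at h7
  linarith

lemma eq_of_sublist_length {E : Type} {l l' : List E} (h : List.Sublist l l')
    (h' : l'.length = l.length) : l = l' := h.eq_of_length h'.symm

/-- a run of a word that is not accepted -/
lemma exists_bad (q0 : Y.Q) (R : ℕ → Y.Lv) (hR : Valid (m + 1) q0 R)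
    (hlen : ∀ l < m + 1, (R l).w.length = (R l).v.length)
    (hp : ∀ i < m + 1, Pumpable (m + 1) q0 R i) :
    ∃ R' : ℕ → Y.Lv, Valid (m + 1) q0 R' ∧ ∃ j < m + 1, (R' j).w.length ≠ (R' j).v.length := by
  have hne : Nonempty (ℕ → Y.Lv) := ⟨R⟩
  choose! R0 R1 hV0 hV1 h01 h0R hl hlater hlt using hp
  set k := m + 1 with hk
  -- the differences
  set dW : ℕ → ℕ → (Fin m → ℕ) × ℕ := fun i l =>
    (vec Y.vA (R1 i l).w - vec Y.vA (R0 i l).w, (R1 i l).w.length - (R0 i l).w.length) with hdW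
  set dV : ℕ → ℕ → (Fin m → ℕ) × ℕ := fun i l =>
    (vec Y.vB (R1 i l).v - vec Y.vB (R0 i l).v, (R1 i l).v.length - (R0 i l).v.length) with hdV
  set dL : ℕ → ℕ → (Fin Y.N → ℕ) := fun i l => (R1 i l).lam - (R0 i l).lam with hdL
  have hW : ∀ i < k, ∀ l ≤ k, vec Y.vA (R1 i l).w = vec Y.vA (R0 i l).w + (dW i l).1 ∧
      (R1 i l).w.length = (R0 i l).w.length + (dW i l).2 := by
    intro i hi l hl'
    have h1 := (h01 i hi l hl').2.1
    refine ⟨(add_tsub_cancel_of_le (vec_sublist h1)).symm, ?_⟩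
    have := h1.length_le
    simp only [hdW]
    omega
  have hV : ∀ i < k, ∀ l ≤ k, vec Y.vB (R1 i l).v = vec Y.vB (R0 i l).v + (dV i l).1 ∧
      (R1 i l).v.length = (R0 i l).v.length + (dV i l).2 := by
    intro i hi l hl'
    have h1 := (h01 i hi l hl').2.2.1
    refine ⟨(add_tsub_cancel_of_le (vec_sublist h1)).symm, ?_⟩
    have := h1.length_le
    simp only [hdV]
    omega
  have hL : ∀ i < k, ∀ l ≤ k, (R1 i l).lam = (R0 i l).lam + dL i l := by
    intro i hi l hl'
    exact (add_tsub_cancel_of_le (h01 i hi l hl').2.2.2).symm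
  have hty : ∀ i < k, ∀ l ≤ k, (R0 i l).st = (R l).st ∧ (R0 i l).fk = (R l).fk ∧
      (R0 i l).fs = (R l).fs ∧ (R0 i l).cp = (R l).cp := fun i hi l hl' => (h0R i hi l hl').1
  have hty1 : ∀ i < k, ∀ l ≤ k, (R1 i l).st = (R l).st ∧ (R1 i l).fk = (R l).fk ∧
      (R1 i l).fs = (R l).fs ∧ (R1 i l).cp = (R l).cp := by
    intro i hi l hl'
    obtain ⟨a1, a2, a3, a4⟩ := (h01 i hi l hl').1
    obtain ⟨b1, b2, b3, b4⟩ := hty i hi l hl'
    exact ⟨a1.symm.trans b1, a2.symm.trans b2, a3.symm.trans b3, a4.symm.trans b4⟩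
  have hlaterW : ∀ i < k, ∀ l < k, i < l → dW i l = 0 := by
    intro i hi l hl' hil
    have h1 := eq_of_sublist_length (h01 i hi l hl'.le).2.1 (hlater i hi l hl' hil)
    simp only [hdW, h1, tsub_self]
    rfl
  have hlaterV : ∀ i < k, ∀ l < k, i < l → dV i l = 0 := by
    intro i hi l hl' hil
    have h2 : (R1 i l).v.length = (R0 i l).v.length := by
      rw [← (hl i hi l hl').1, ← (hl i hi l hl').2, hlater i hi l hl' hil]
    have h1 := eq_of_sublist_length (h01 i hi l hl'.le).2.2.1 h2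
    simp only [hdV, h1, tsub_self]
    rfl
  -- the spine
  have hS : ∀ i < k, ∀ l ≤ k, S (R1 i) l = S (R0 i) l + ∑ l' ∈ range l, (dW i l').1 := by
    intro i hi l hl'
    unfold S
    rw [← Finset.sum_add_distrib]
    refine Finset.sum_congr rfl fun l' hl'' => ?_
    have hl3 : l' ≤ k := by simp only [Finset.mem_range] at hl''; omega
    rw [(hW i hi l' hl3).1, (hty i hi l' hl3).2.1, (hty1 i hi l' hl3).2.1]
    abel
  have hX : ∀ i < k, ∀ l < k, ∑ l' ∈ range (l + 1), (dW i l').1 + (dV i l).1 =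
      Y.f (R l).cp (dL i l) := by
    intro i hi l hl'
    have e0 := ((hV0 i hi).2.1 l hl').2.2.2.2
    have e1 := ((hV1 i hi).2.1 l hl').2.2.2.2
    rw [hS i hi l hl'.le, (hW i hi l hl'.le).1, (hV i hi l hl'.le).1, hL i hi l hl'.le,
      (hty1 i hi l hl'.le).2.1, (hty1 i hi l hl'.le).2.2.2, map_add] at e1
    rw [(hty i hi l hl'.le).2.1, (hty i hi l hl'.le).2.2.2] at e0
    have e2 : (Y.base (R l).cp + Y.f (R l).cp (R0 i l).lam) + (∑ l' ∈ range (l + 1), (dW i l').1 +
        (dV i l).1) = (Y.base (R l).cp + Y.f (R l).cp (R0 i l).lam) + Y.f (R l).cp (dL i l) := by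
      rw [add_assoc (Y.base (R l).cp) _ (Y.f (R l).cp (dL i l)), ← e1, ← e0,
        Finset.sum_range_succ]
      abel
    exact add_left_cancel e2
  have hXk : ∀ i < k, ∑ l' ∈ range k, (dW i l').1 = Y.f (R k).cp (dL i k) := by
    intro i hi
    have e0 := (hV0 i hi).2.2.2
    have e1 := (hV1 i hi).2.2.2
    rw [hS i hi k le_rfl, hL i hi k le_rfl, (hty1 i hi k le_rfl).2.2.2, map_add] at e1
    rw [(hty i hi k le_rfl).2.2.2] at e0
    rw [e0, add_assoc] at e1
    exact add_left_cancel (add_left_cancel e1)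
  -- the dependence
  obtain ⟨j, hj, D, hD, β, γ, hdep⟩ := exists_dependence
    (fun i => ∑ l' ∈ range (i + 1), (dW i l').1)
  have hsig : ∀ i < j, ∑ l' ∈ range (j + 1), (dW i l').1 = ∑ l' ∈ range (i + 1), (dW i l').1 := by
    intro i hi
    symm
    apply Finset.sum_subset
    · intro l hl'
      simp only [Finset.mem_range] at hl' ⊢
      omega
    · intro l hl' hl''
      simp only [Finset.mem_range] at hl' hl''
      rw [hlaterW i (by omega) l (by omega) (by omega)]
      rfl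
  set Nn : ℕ → ℕ := fun i => if i < j then γ i else 0 with hNn
  -- the paths
  have hpW : ∀ l < k, IsPath Y.srcA Y.tgtA (R l).st (Y.srcK (R l).fk) (R l).w :=
    fun l hl' => (hR.2.1 l hl').1
  have hpV : ∀ l < k, IsPath Y.srcB Y.tgtB (Y.lK (R l).fk) (R l).fs (R l).v :=
    fun l hl' => (hR.2.1 l hl').2.1
  have haW : ∀ i < k, ∀ l (hl' : l < k), dW i l ∈ avail Y.vA (hpW l hl') := by
    intro i hi l hl'
    have p0 := ((hV0 i hi).2.1 l hl').1
    have p1 := ((hV1 i hi).2.1 l hl').1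
    rw [(hty i hi l hl'.le).1, (hty i hi l hl'.le).2.1] at p0
    rw [(hty1 i hi l hl'.le).1, (hty1 i hi l hl'.le).2.1] at p1
    exact avail_mono p0 (hpW l hl') (h0R i hi l hl'.le).2.1
      ⟨_, p1, (h01 i hi l hl'.le).2.1, (hW i hi l hl'.le).1, (hW i hi l hl'.le).2⟩
  have haV : ∀ i < k, ∀ l (hl' : l < k), dV i l ∈ avail Y.vB (hpV l hl') := by
    intro i hi l hl'
    have p0 := ((hV0 i hi).2.1 l hl').2.1
    have p1 := ((hV1 i hi).2.1 l hl').2.1
    rw [(hty i hi l hl'.le).2.1, (hty i hi l hl'.le).2.2.1] at p0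
    rw [(hty1 i hi l hl'.le).2.1, (hty1 i hi l hl'.le).2.2.1] at p1
    exact avail_mono p0 (hpV l hl') (h0R i hi l hl'.le).2.2.1
      ⟨_, p1, (h01 i hi l hl'.le).2.2.1, (hV i hi l hl'.le).1, (hV i hi l hl'.le).2⟩
  have hw2 : ∀ l, l < k → ∃ w2 : List Y.A, IsPath Y.srcA Y.tgtA (R l).st (Y.srcK (R l).fk) w2 ∧
      vec Y.vA w2 = vec Y.vA (R l).w + ∑ i ∈ range k, Nn i • (dW i l).1 ∧
      w2.length = (R l).w.length + ∑ i ∈ range k, Nn i * (dW i l).2 := by
    intro l hl'
    have : ∑ i ∈ range k, Nn i • dW i l ∈ avail Y.vA (hpW l hl') :=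
      sum_mem fun i hi => nsmul_mem (haW i (Finset.mem_range.mp hi) l hl') _
    obtain ⟨w2, h1, -, h3, h4⟩ := this
    refine ⟨w2, h1, ?_, ?_⟩
    · rw [h3, Prod.fst_sum]
      rfl
    · rw [h4, Prod.snd_sum]
      rfl
  have hv2 : ∀ l, l < k → ∃ v2 : List Y.B, IsPath Y.srcB Y.tgtB (Y.lK (R l).fk) (R l).fs v2 ∧
      vec Y.vB v2 = vec Y.vB (R l).v + (∑ i ∈ range k, Nn i • (dV i l).1 +
        if l = j then D • (dV j j).1 else 0) ∧
      v2.length = (R l).v.length + (∑ i ∈ range k, Nn i * (dV i l).2 +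
        if l = j then D * (dV j j).2 else 0) := by
    intro l hl'
    have h1 : ∑ i ∈ range k, Nn i • dV i l ∈ avail Y.vB (hpV l hl') :=
      sum_mem fun i hi => nsmul_mem (haV i (Finset.mem_range.mp hi) l hl') _
    have h2 : (if l = j then D • dV j j else 0) ∈ avail Y.vB (hpV l hl') := by
      split_ifs with h
      · subst h
        exact nsmul_mem (haV l hl' l hl') _
      · exact zero_mem _
    obtain ⟨v2, h3, -, h4, h5⟩ := add_mem h1 h2
    refine ⟨v2, h3, ?_, ?_⟩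
    · rw [h4, Prod.fst_add, Prod.fst_sum]
      split_ifs <;> rfl
    · rw [h5, Prod.snd_add, Prod.snd_sum]
      split_ifs <;> rfl
  choose! w2 hw2a hw2b hw2c using hw2
  choose! v2 hv2a hv2b hv2c using hv2
  set R2 : ℕ → Y.Lv := fun l => ⟨(R l).st, (R l).fk, (R l).fs, (R l).cp, w2 l, v2 l,
    if l = j then (R l).lam + (∑ i ∈ range j, β i • dL i j + D • dL j j)
    else (R l).lam + ∑ i ∈ range k, Nn i • dL i l⟩ with hR2
  have hS2 : ∀ l ≤ k, S R2 l = S R l + ∑ i ∈ range k, Nn i • ∑ l' ∈ range l, (dW i l').1 := by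
    intro l hl'
    unfold S
    simp only [Finset.smul_sum]
    rw [Finset.sum_comm, ← Finset.sum_add_distrib]
    refine Finset.sum_congr rfl fun l' hl'' => ?_
    have hl3 : l' < k := by simp only [Finset.mem_range] at hl''; omega
    simp only [hR2]
    rw [hw2b l' hl3]
    abel
  refine ⟨R2, ⟨hR.1, ?_, hR.2.2.1, ?_⟩, j, hj, ?_⟩
  · intro l hl'
    refine ⟨hw2a l hl', hv2a l hl', (hR.2.1 l hl').2.2.1, (hR.2.1 l hl').2.2.2.1, ?_⟩
    have e := (hR.2.1 l hl').2.2.2.2
    rw [hS2 l hl'.le]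
    simp only [hR2]
    rw [hw2b l hl', hv2b l hl']
    -- the total of the pumped parts
    have e1 : ∑ i ∈ range k, Nn i • (∑ l' ∈ range (l + 1), (dW i l').1 + (dV i l).1) =
        ∑ i ∈ range k, Nn i • ∑ l' ∈ range l, (dW i l').1 + ∑ i ∈ range k, Nn i • (dW i l).1 +
        ∑ i ∈ range k, Nn i • (dV i l).1 := by
      rw [← Finset.sum_add_distrib, ← Finset.sum_add_distrib]
      refine Finset.sum_congr rfl fun i _ => ?_
      rw [Finset.sum_range_succ, smul_add, smul_add]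
    by_cases hlj : l = j
    · subst hlj
      simp only [if_true, map_add, map_sum, map_nsmul]
      have e2 : ∑ i ∈ range l, β i • Y.f (R l).cp (dL i l) =
          ∑ i ∈ range l, β i • ∑ l' ∈ range (i + 1), (dW i l').1 := by
        refine Finset.sum_congr rfl fun i hi => ?_
        simp only [Finset.mem_range] at hi
        rw [← hX i (by omega) l hl', hsig i hi, hlaterV i (by omega) l hl' hi]
        simp
      have e3 : ∑ i ∈ range k, Nn i • (∑ l' ∈ range (l + 1), (dW i l').1 + (dV i l).1) =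
          ∑ i ∈ range l, γ i • ∑ l' ∈ range (i + 1), (dW i l').1 := by
        rw [← Finset.sum_subset (s₁ := range l)]
        · refine Finset.sum_congr rfl fun i hi => ?_
          simp only [Finset.mem_range] at hi
          simp only [hNn, if_pos hi]
          rw [hsig i hi, hlaterV i (by omega) l hl' hi]
          simp
        · intro i hi
          simp only [Finset.mem_range] at hi ⊢
          omega
        · intro i _ hi
          simp only [Finset.mem_range] at hi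
          simp only [hNn, if_neg hi, zero_smul]
      rw [e3, ← hdep] at e1
      rw [e2, ← hX l hl' l hl', smul_add]
      calc _ = (S R l + vec Y.vA (R l).w + Y.el (R l).fk + vec Y.vB (R l).v) +
            (∑ i ∈ range k, Nn i • ∑ l' ∈ range l, (dW i l').1 +
              ∑ i ∈ range k, Nn i • (dW i l).1 + ∑ i ∈ range k, Nn i • (dV i l).1) +
              D • (dV l l).1 := by abel
        _ = _ := by
            rw [e, ← e1]
            abel
    · simp only [if_neg hlj, map_add, map_sum, map_nsmul, add_zero]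
      have e2 : ∑ i ∈ range k, Nn i • Y.f (R l).cp (dL i l) =
          ∑ i ∈ range k, Nn i • (∑ l' ∈ range (l + 1), (dW i l').1 + (dV i l).1) := by
        refine Finset.sum_congr rfl fun i hi => ?_
        simp only [Finset.mem_range] at hi
        rw [← hX i hi l hl']
      rw [e2, e1, ← add_assoc (Y.base (R l).cp), ← e]
      abel
  · rw [hS2 k le_rfl, hR.2.2.2]
    have hkj : ¬ k = j := by omega
    simp only [hR2, if_neg hkj, map_add, map_sum, map_nsmul]
    rw [add_assoc]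
    congr 2
    refine Finset.sum_congr rfl fun i hi => ?_
    rw [hXk i (Finset.mem_range.mp hi)]
  · simp only [hR2]
    rw [hw2c j hj, hv2c j hj, if_pos rfl, hlen j hj]
    have h1 : ∀ i ∈ range k, Nn i * (dV i j).2 = Nn i * (dW i j).2 := by
      intro i hi
      simp only [Finset.mem_range] at hi
      have h2 := hl i hi j hj
      simp only [hdV, hdW]
      rw [h2.1, h2.2]
    rw [Finset.sum_congr rfl h1]
    have h2 : 0 < (dV j j).2 := by
      have := hlt j hj
      have h3 := hl j hj j hj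
      simp only [hdV]
      omega
    have h3 : 0 < D * (dV j j).2 := Nat.mul_pos hD h2
    omega

/-- `R` is an accepting run with `k` levels that starts with the counters `s`. -/
def VS (k : ℕ) (q : Y.Q) (s : Fin m → ℕ) (R : ℕ → Y.Lv) : Prop :=
  (R 0).st = q ∧ (∀ i < k, IsPath Y.srcA Y.tgtA (R i).st (Y.srcK (R i).fk) (R i).w ∧
    IsPath Y.srcB Y.tgtB (Y.lK (R i).fk) (R i).fs (R i).v ∧ Y.leafOK (R i).fs ∧
    (R (i + 1)).st = Y.rK (R i).fk ∧
    s + S R i + vec Y.vA (R i).w + Y.el (R i).fk + vec Y.vB (R i).v =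
      Y.base (R i).cp + Y.f (R i).cp (R i).lam) ∧
  Y.leafOK (R k).st ∧ s + S R k = Y.base (R k).cp + Y.f (R k).cp (R k).lam

lemma VS_zero {k : ℕ} {q : Y.Q} {R : ℕ → Y.Lv} : VS k q 0 R ↔ Valid k q R := by
  simp only [VS, Valid, zero_add]

lemma S_succ (R : ℕ → Y.Lv) (i : ℕ) : S R (i + 1) =
    vec Y.vA (R 0).w + Y.er (R 0).fk + S (fun i => R (i + 1)) i := by
  unfold S
  rw [Finset.sum_range_succ', add_comm]

lemma VS_succ {k : ℕ} {q : Y.Q} {s : Fin m → ℕ} {R : ℕ → Y.Lv} : VS (k + 1) q s R ↔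
    ((R 0).st = q ∧ IsPath Y.srcA Y.tgtA (R 0).st (Y.srcK (R 0).fk) (R 0).w ∧
    IsPath Y.srcB Y.tgtB (Y.lK (R 0).fk) (R 0).fs (R 0).v ∧ Y.leafOK (R 0).fs ∧
    s + vec Y.vA (R 0).w + Y.el (R 0).fk + vec Y.vB (R 0).v =
      Y.base (R 0).cp + Y.f (R 0).cp (R 0).lam) ∧
    VS k (Y.rK (R 0).fk) (s + vec Y.vA (R 0).w + Y.er (R 0).fk) (fun i => R (i + 1)) := by
  constructor
  · rintro ⟨h1, h2, h3, h4⟩
    refine ⟨⟨h1, (h2 0 (by omega)).1, (h2 0 (by omega)).2.1, (h2 0 (by omega)).2.2.1, ?_⟩,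
      (h2 0 (by omega)).2.2.2.1, ?_, h3, ?_⟩
    · have := (h2 0 (by omega)).2.2.2.2
      simpa [S] using this
    · intro i hi
      obtain ⟨a1, a2, a3, a4, a5⟩ := h2 (i + 1) (by omega)
      refine ⟨a1, a2, a3, a4, ?_⟩
      rw [← a5, S_succ]
      simp only [add_assoc]
    · rw [← h4, S_succ]
      simp only [add_assoc]
  · rintro ⟨⟨h1, h2, h3, h4, h5⟩, h6, h7, h8, h9⟩
    refine ⟨h1, ?_, h8, ?_⟩
    · intro i hi
      cases i with
      | zero =>
        refine ⟨h2, h3, h4, h6, ?_⟩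
        rw [← h5]
        simp [S]
      | succ i =>
        obtain ⟨a1, a2, a3, a4, a5⟩ := h7 i (by omega)
        refine ⟨a1, a2, a3, a4, ?_⟩
        rw [← a5, S_succ]
        simp only [add_assoc]
    · rw [← h9, S_succ]
      simp only [add_assoc]

end Sys

/-! ### Semilinear sets -/

open scoped Pointwise in
lemma semilinear_rep {C : Set (Fin m → ℕ)} (hC : IsSemilinearSet C) :
    ∃ (ι : Type) (_ : Finite ι) (N : ℕ) (b : ι → Fin m → ℕ) (f : ι → (Fin N → ℕ) →+ (Fin m → ℕ)),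
      ∀ x, x ∈ C ↔ ∃ i v, x = b i + f i v := by
  obtain ⟨S, hfin, hlin, rfl⟩ := hC
  have h1 : ∀ t : S, ∃ (a : Fin m → ℕ) (n : ℕ) (g : (Fin n → ℕ) →+ (Fin m → ℕ)),
      (t : Set (Fin m → ℕ)) = a +ᵥ Set.range g := fun t =>
    isLinearSet_iff_exists_fin_addMonoidHom.mp (hlin t t.2)
  choose a n g h2 using h1
  have hfin' : Finite S := hfin
  obtain ⟨N, hN⟩ := (Set.finite_range n).bddAbove
  have hN' : ∀ i, n i ≤ N := fun i => hN ⟨i, rfl⟩
  refine ⟨S, hfin', N, a, fun i => (g i).comp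
    { toFun := fun v => fun j => v (Fin.castLE (hN' i) j)
      map_zero' := rfl
      map_add' := fun _ _ => rfl }, ?_⟩
  intro x
  constructor
  · rintro ⟨t, ht, hx⟩
    have h3 := h2 ⟨t, ht⟩
    simp only at h3
    rw [h3] at hx
    obtain ⟨y, ⟨v, rfl⟩, rfl⟩ := hx
    refine ⟨⟨t, ht⟩, fun j => if h : (j : ℕ) < n ⟨t, ht⟩ then v ⟨j, h⟩ else 0, ?_⟩
    simp only [vadd_eq_add, AddMonoidHom.coe_comp, Function.comp_apply, AddMonoidHom.coe_mk,
      ZeroHom.coe_mk]
    congr 2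
    funext j
    simp
  · rintro ⟨i, v, rfl⟩
    refine ⟨i, i.2, ?_⟩
    rw [h2 i]
    exact ⟨_, ⟨_, rfl⟩, rfl⟩

/-! ### The trees -/

/-- The symbols `σ` (binary), `a`, `b` (unary) and `α` (nullary). -/
inductive Sym
  | fork | a | b | leaf

instance : Finite Sym := by
  refine Finite.of_injective (fun x : Sym => (match x with
    | .fork => 0 | .a => 1 | .b => 2 | .leaf => 3 : Fin 4)) ?_
  intro x y h
  cases x <;> cases y <;> simp_all

/-- The ranks of the symbols. -/
@[reducible] def rank : Sym → ℕ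
  | .fork => 2
  | .a => 1
  | .b => 1
  | .leaf => 0

def leafT : RTree Sym rank := .node .leaf (fun i => i.elim0)

def aT (t : RTree Sym rank) : RTree Sym rank := .node .a (fun _ => t)

def bT (t : RTree Sym rank) : RTree Sym rank := .node .b (fun _ => t)

def forkT (l r : RTree Sym rank) : RTree Sym rank := .node .fork (![l, r] : Fin 2 → _)

def apow : ℕ → RTree Sym rank → RTree Sym rank
  | 0, t => t
  | n + 1, t => aT (apow n t)

def bpow : ℕ → RTree Sym rank → RTree Sym rank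
  | 0, t => t
  | n + 1, t => bT (bpow n t)

/-- The tree `a^{f 0} σ(b^{f' 0} α, a^{f 1} σ(b^{f' 1} α, …))`. -/
def tree : ℕ → (ℕ → ℕ × ℕ) → RTree Sym rank
  | 0, _ => leafT
  | k + 1, f => apow (f 0).1 (forkT (bpow (f 0).2 leafT) (tree k (fun i => f (i + 1))))

section acc

variable (A : PTAR Sym rank m)

lemma acc_leaf (q : A.Q) (s : Fin m → ℕ) : A.Acc leafT q s ↔
    (∃ f, ((q, ⟨.leaf, f⟩) : A.Q × (Σ σ : Sym, Fin (rank σ) → A.Q × Option (Fin m → ℕ))) ∈ A.Δ) ∧
      s ∈ A.C := by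
  unfold leafT
  rw [PTAR.Acc]
  constructor
  · rintro ⟨f, h1, h2, -⟩
    exact ⟨⟨f, h1⟩, h2 rfl⟩
  · rintro ⟨⟨f, h1⟩, h2⟩
    exact ⟨f, h1, fun _ => h2, fun i => i.elim0⟩

lemma acc_a (t : RTree Sym rank) (q : A.Q) (s : Fin m → ℕ) : A.Acc (aT t) q s ↔
    ∃ f : Fin 1 → A.Q × Option (Fin m → ℕ), (q, ⟨.a, f⟩) ∈ A.Δ ∧
      A.Acc t (f 0).1 (next s (f 0).2) := by
  unfold aT
  rw [PTAR.Acc]
  constructor
  · rintro ⟨f, h1, -, h2⟩
    exact ⟨f, h1, h2 (0 : Fin 1)⟩
  · rintro ⟨f, h1, h2⟩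
    refine ⟨f, h1, fun h => absurd h (by simp), fun i => ?_⟩
    have : i = (0 : Fin 1) := Subsingleton.elim (α := Fin 1) _ _
    rw [this]
    exact h2

lemma acc_b (t : RTree Sym rank) (q : A.Q) (s : Fin m → ℕ) : A.Acc (bT t) q s ↔
    ∃ f : Fin 1 → A.Q × Option (Fin m → ℕ), (q, ⟨.b, f⟩) ∈ A.Δ ∧
      A.Acc t (f 0).1 (next s (f 0).2) := by
  unfold bT
  rw [PTAR.Acc]
  constructor
  · rintro ⟨f, h1, -, h2⟩
    exact ⟨f, h1, h2 (0 : Fin 1)⟩
  · rintro ⟨f, h1, h2⟩
    refine ⟨f, h1, fun h => absurd h (by simp), fun i => ?_⟩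
    have : i = (0 : Fin 1) := Subsingleton.elim (α := Fin 1) _ _
    rw [this]
    exact h2

lemma acc_fork (l r : RTree Sym rank) (q : A.Q) (s : Fin m → ℕ) : A.Acc (forkT l r) q s ↔
    ∃ f : Fin 2 → A.Q × Option (Fin m → ℕ), (q, ⟨.fork, f⟩) ∈ A.Δ ∧
      A.Acc l (f 0).1 (next s (f 0).2) ∧ A.Acc r (f 1).1 (next s (f 1).2) := by
  unfold forkT
  rw [PTAR.Acc]
  constructor
  · rintro ⟨f, h1, -, h2⟩
    exact ⟨f, h1, h2 (0 : Fin 2), h2 (1 : Fin 2)⟩
  · rintro ⟨f, h1, h2, h3⟩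
    refine ⟨f, h1, fun h => absurd h (by simp), fun i => ?_⟩
    have : i = (0 : Fin 2) ∨ i = (1 : Fin 2) := by
      have : ∀ i : Fin 2, i = 0 ∨ i = 1 := by decide
      exact this i
    rcases this with h | h
    · rw [h]
      exact h2
    · rw [h]
      exact h3

end acc

/-! ### From a PTA to a system -/

/-- The system of a PTA. -/
noncomputable abbrev toSys (A : PTAR Sym rank m) (ι : Type) (N : ℕ) (b : ι → Fin m → ℕ)
    (f : ι → (Fin N → ℕ) →+ (Fin m → ℕ)) : Sys m where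
  Q := A.Q
  A := {x : A.Q × (Fin 1 → A.Q × Option (Fin m → ℕ)) // (x.1, ⟨.a, x.2⟩) ∈ A.Δ}
  B := {x : A.Q × (Fin 1 → A.Q × Option (Fin m → ℕ)) // (x.1, ⟨.b, x.2⟩) ∈ A.Δ}
  K := {x : A.Q × (Fin 2 → A.Q × Option (Fin m → ℕ)) // (x.1, ⟨.fork, x.2⟩) ∈ A.Δ}
  ι := ι
  N := N
  srcA x := x.1.1
  tgtA x := (x.1.2 0).1
  vA x := (x.1.2 0).2.getD 0
  srcB x := x.1.1
  tgtB x := (x.1.2 0).1
  vB x := (x.1.2 0).2.getD 0
  srcK x := x.1.1
  lK x := (x.1.2 0).1
  rK x := (x.1.2 1).1
  el x := (x.1.2 0).2.getD 0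
  er x := (x.1.2 1).2.getD 0
  leafOK q := ∃ f, ((q, ⟨.leaf, f⟩) :
    A.Q × (Σ σ : Sym, Fin (rank σ) → A.Q × Option (Fin m → ℕ))) ∈ A.Δ
  base := b
  f := f

lemma finite_a (A : PTAR Sym rank m) :
    Finite {x : A.Q × (Fin 1 → A.Q × Option (Fin m → ℕ)) // (x.1, ⟨.a, x.2⟩) ∈ A.Δ} := by
  have := A.finΔ.to_subtype
  refine Finite.of_injective (fun x => (⟨(x.1.1, ⟨.a, x.1.2⟩), x.2⟩ : A.Δ)) ?_
  rintro ⟨⟨q, f⟩, h⟩ ⟨⟨q', f'⟩, h'⟩ he
  simp only [Subtype.mk.injEq, Prod.mk.injEq, Sigma.mk.injEq, heq_eq_eq, true_and] at he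
  simp [he.1, he.2]

lemma finite_b (A : PTAR Sym rank m) :
    Finite {x : A.Q × (Fin 1 → A.Q × Option (Fin m → ℕ)) // (x.1, ⟨.b, x.2⟩) ∈ A.Δ} := by
  have := A.finΔ.to_subtype
  refine Finite.of_injective (fun x => (⟨(x.1.1, ⟨.b, x.1.2⟩), x.2⟩ : A.Δ)) ?_
  rintro ⟨⟨q, f⟩, h⟩ ⟨⟨q', f'⟩, h'⟩ he
  simp only [Subtype.mk.injEq, Prod.mk.injEq, Sigma.mk.injEq, heq_eq_eq, true_and] at he
  simp [he.1, he.2]

lemma finite_k (A : PTAR Sym rank m) :
    Finite {x : A.Q × (Fin 2 → A.Q × Option (Fin m → ℕ)) // (x.1, ⟨.fork, x.2⟩) ∈ A.Δ} := by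
  have := A.finΔ.to_subtype
  refine Finite.of_injective (fun x => (⟨(x.1.1, ⟨.fork, x.1.2⟩), x.2⟩ : A.Δ)) ?_
  rintro ⟨⟨q, f⟩, h⟩ ⟨⟨q', f'⟩, h'⟩ he
  simp only [Subtype.mk.injEq, Prod.mk.injEq, Sigma.mk.injEq, heq_eq_eq, true_and] at he
  simp [he.1, he.2]

lemma next_eq (s : Fin m → ℕ) {o : Option (Fin m → ℕ)} (h : o ≠ none) :
    next s o = s + o.getD 0 := by
  cases o with
  | none => exact absurd rfl h
  | some e => rfl

section pta

variable {A : PTAR Sym rank m} (hA : A.IsPTA) {ι : Type} {N : ℕ} {b : ι → Fin m → ℕ}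
  {f : ι → (Fin N → ℕ) →+ (Fin m → ℕ)}

include hA in
lemma acc_apow (t : RTree Sym rank) : ∀ (n : ℕ) (q : A.Q) (s : Fin m → ℕ),
    A.Acc (apow n t) q s ↔ ∃ (q' : A.Q) (w : List (toSys A ι N b f).A),
      IsPath (toSys A ι N b f).srcA (toSys A ι N b f).tgtA q q' w ∧ w.length = n ∧
      A.Acc t q' (s + vec (toSys A ι N b f).vA w) := by
  intro n
  induction n with
  | zero =>
    intro q s
    constructor
    · intro h
      refine ⟨q, [], rfl, rfl, ?_⟩
      rw [show vec _ ([] : List _) = (0 : Fin m → ℕ) from rfl, add_zero]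
      exact h
    · rintro ⟨q', w, h1, h2, h3⟩
      rw [List.length_eq_zero_iff] at h2
      subst h2
      obtain rfl : q = q' := h1
      rw [show vec _ ([] : List _) = (0 : Fin m → ℕ) from rfl, add_zero] at h3
      exact h3
  | succ n ih =>
    intro q s
    rw [apow, acc_a]
    constructor
    · rintro ⟨g, h1, h2⟩
      obtain ⟨q', w, h3, h4, h5⟩ := (ih _ _).mp h2
      refine ⟨q', (⟨(q, g), h1⟩ : (toSys A ι N b f).A) :: w, ⟨rfl, h3⟩, by simp [h4], ?_⟩
      rw [next_eq s (hA _ _ _ h1 _), add_assoc] at h5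
      rw [vec_cons]
      exact h5
    · rintro ⟨q', w, h1, h2, h3⟩
      cases w with
      | nil => simp at h2
      | cons x w =>
        obtain ⟨⟨q1, g⟩, hx⟩ := x
        obtain ⟨h4, h5⟩ := h1
        have h4' : q1 = q := h4
        subst h4'
        refine ⟨g, hx, (ih _ _).mpr ⟨q', w, h5, by simpa using h2, ?_⟩⟩
        rw [next_eq s (hA _ _ _ hx _), add_assoc]
        rw [vec_cons] at h3
        exact h3

include hA in
lemma acc_bpow (t : RTree Sym rank) : ∀ (n : ℕ) (q : A.Q) (s : Fin m → ℕ),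
    A.Acc (bpow n t) q s ↔ ∃ (q' : A.Q) (w : List (toSys A ι N b f).B),
      IsPath (toSys A ι N b f).srcB (toSys A ι N b f).tgtB q q' w ∧ w.length = n ∧
      A.Acc t q' (s + vec (toSys A ι N b f).vB w) := by
  intro n
  induction n with
  | zero =>
    intro q s
    constructor
    · intro h
      refine ⟨q, [], rfl, rfl, ?_⟩
      rw [show vec _ ([] : List _) = (0 : Fin m → ℕ) from rfl, add_zero]
      exact h
    · rintro ⟨q', w, h1, h2, h3⟩
      rw [List.length_eq_zero_iff] at h2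
      subst h2
      obtain rfl : q = q' := h1
      rw [show vec _ ([] : List _) = (0 : Fin m → ℕ) from rfl, add_zero] at h3
      exact h3
  | succ n ih =>
    intro q s
    rw [bpow, acc_b]
    constructor
    · rintro ⟨g, h1, h2⟩
      obtain ⟨q', w, h3, h4, h5⟩ := (ih _ _).mp h2
      refine ⟨q', (⟨(q, g), h1⟩ : (toSys A ι N b f).B) :: w, ⟨rfl, h3⟩, by simp [h4], ?_⟩
      rw [next_eq s (hA _ _ _ h1 _), add_assoc] at h5
      rw [vec_cons]
      exact h5
    · rintro ⟨q', w, h1, h2, h3⟩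
      cases w with
      | nil => simp at h2
      | cons x w =>
        obtain ⟨⟨q1, g⟩, hx⟩ := x
        obtain ⟨h4, h5⟩ := h1
        have h4' : q1 = q := h4
        subst h4'
        refine ⟨g, hx, (ih _ _).mpr ⟨q', w, h5, by simpa using h2, ?_⟩⟩
        rw [next_eq s (hA _ _ _ hx _), add_assoc]
        rw [vec_cons] at h3
        exact h3

include hA in
lemma acc_tree (hC : ∀ x, x ∈ A.C ↔ ∃ i v, x = b i + f i v)
    (x0 : (toSys A ι N b f).K) : ∀ (k : ℕ) (g : ℕ → ℕ × ℕ) (q : A.Q) (s : Fin m → ℕ),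
    A.Acc (tree k g) q s ↔ ∃ R : ℕ → (toSys A ι N b f).Lv, Sys.VS k q s R ∧
      ∀ l < k, (R l).w.length = (g l).1 ∧ (R l).v.length = (g l).2 := by
  intro k
  induction k with
  | zero =>
    intro g q s
    rw [tree, acc_leaf, hC]
    constructor
    · rintro ⟨h1, i, v, h2⟩
      refine ⟨fun _ => ⟨q, x0, q, i, [], [], v⟩, ⟨rfl, fun i hi => by omega, h1, ?_⟩,
        fun l hl => by omega⟩
      simpa [Sys.S] using h2
    · rintro ⟨R, ⟨h1, -, h3, h4⟩, -⟩
      rw [h1] at h3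
      exact ⟨h3, (R 0).cp, (R 0).lam, by simpa [Sys.S] using h4⟩
  | succ k ih =>
    intro g q s
    rw [tree, acc_apow hA (ι := ι) (N := N) (b := b) (f := f)]
    constructor
    · rintro ⟨q', w, h1, h2, h3⟩
      obtain ⟨h, h4, h5, h6⟩ := (acc_fork A _ _ _ _).mp h3
      obtain ⟨q'', v, h7, h8, h9⟩ := (acc_bpow hA (ι := ι) (N := N) (b := b) (f := f) _ _ _ _).mp h5
      obtain ⟨h10, h11⟩ := (acc_leaf A _ _).mp h9
      obtain ⟨i, lam, h12⟩ := (hC _).mp h11
      obtain ⟨R, h13, h14⟩ := (ih _ _ _).mp h6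
      rw [next_eq _ (hA _ _ _ h4 _)] at h12 h13
      refine ⟨fun n => Nat.casesOn n ⟨q, ⟨(q', h), h4⟩, q'', i, w, v, lam⟩ R, ?_, ?_⟩
      · rw [Sys.VS_succ]
        exact ⟨⟨rfl, h1, h7, h10, h12⟩, h13⟩
      · intro l hl
        cases l with
        | zero => exact ⟨h2, h8⟩
        | succ l => exact h14 l (by omega)
    · rintro ⟨R, hR, hlen⟩
      obtain ⟨⟨h1, h2, h3, h4, h5⟩, h6⟩ := Sys.VS_succ.mp hR
      obtain ⟨⟨⟨q', h⟩, hq'⟩, hfk⟩ : ∃ x, x = (R 0).fk := ⟨_, rfl⟩
      rw [← hfk] at h2 h3 h5 h6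
      rw [h1] at h2
      refine ⟨q', (R 0).w, h2, (hlen 0 (by omega)).1, ?_⟩
      refine (acc_fork A _ _ _ _).mpr ⟨h, hq', ?_, ?_⟩
      · refine (acc_bpow hA (ι := ι) (N := N) (b := b) (f := f) _ _ _ _).mpr
          ⟨(R 0).fs, (R 0).v, h3, (hlen 0 (by omega)).2, ?_⟩
        refine (acc_leaf A _ _).mpr ⟨h4, ?_⟩
        rw [hC, next_eq _ (hA _ _ _ hq' _)]
        exact ⟨_, _, h5⟩
      · refine (ih _ _ _).mpr ⟨fun i => R (i + 1), ?_, fun l hl => hlen (l + 1) (by omega)⟩
        rw [next_eq _ (hA _ _ _ hq' _)]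
        exact h6

include hA in
/-- No PTA accepts exactly the trees with equal numbers. -/
lemma not_pta (h1 : ∀ (k : ℕ) (n : ℕ → ℕ), tree k (fun i => (n i, n i)) ∈ A.lang)
    (h2 : ∀ (k : ℕ) (g : ℕ → ℕ × ℕ), tree k g ∈ A.lang → ∀ i < k, (g i).1 = (g i).2) : False := by
  obtain ⟨ι, hι, N, b, f, hC⟩ := semilinear_rep A.semilinear
  obtain ⟨x0⟩ : Nonempty (toSys A ι N b f).K := by
    have h3 : A.Acc (tree 1 (fun i => (0, 0))) A.start 0 := h1 1 (fun _ => 0)
    obtain ⟨h, h4, -⟩ := (acc_fork A _ _ _ _).mp h3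
    exact ⟨⟨(_, h), h4⟩⟩
  have i1 : Finite (toSys A ι N b f).Q := A.finQ
  have i2 : Finite (toSys A ι N b f).A := finite_a A
  have i3 : Finite (toSys A ι N b f).B := finite_b A
  have i4 : Finite (toSys A ι N b f).K := finite_k A
  have i5 : Finite (toSys A ι N b f).ι := hι
  obtain ⟨R, hR1, hR2, -, hR4⟩ := Sys.exists_pumpable (Y := toSys A ι N b f) (m + 1) A.start (by
    intro n
    have h3 : A.Acc (tree (m + 1) (fun i => (n i, n i))) A.start 0 := h1 (m + 1) n
    obtain ⟨R, h4, h5⟩ := (acc_tree hA hC x0 _ _ _ _).mp h3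
    exact ⟨R, Sys.VS_zero.mp h4, h5⟩) (m + 1) le_rfl (fun _ => 0)
  obtain ⟨R', h3, j, hj, h4⟩ := Sys.exists_bad (Y := toSys A ι N b f) A.start R hR1 hR2 hR4
  apply h4
  exact h2 (m + 1) (fun l => ((R' l).w.length, (R' l).v.length))
    ((acc_tree hA hC x0 _ _ _ _).mpr ⟨R', Sys.VS_zero.mpr h3, fun l _ => ⟨rfl, rfl⟩⟩) j hj

end pta

/-! ### The PTAR -/

/-- The transitions of the automaton. -/
def delta : Set (Bool × (Σ σ : Sym, Fin (rank σ) → Bool × Option (Fin 2 → ℕ))) :=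
  {(false, ⟨.a, fun _ => (false, some ![1, 0])⟩), (true, ⟨.b, fun _ => (true, some ![0, 1])⟩),
    (false, ⟨.fork, (![(true, some 0), (false, none)] : Fin 2 → Bool × Option (Fin 2 → ℕ))⟩),
    (true, ⟨.leaf, fun i => i.elim0⟩), (false, ⟨.leaf, fun i => i.elim0⟩)}

lemma semilinear_diag : IsSemilinearSet {s : Fin 2 → ℕ | s 0 = s 1} := by
  have : {s : Fin 2 → ℕ | s 0 = s 1} = (AddSubmonoid.closure {(![1, 1] : Fin 2 → ℕ)} : Set _) := by
    ext s
    rw [SetLike.mem_coe, AddSubmonoid.mem_closure_singleton]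
    constructor
    · intro h
      refine ⟨s 0, ?_⟩
      have h' : s 0 = s 1 := h
      funext i
      fin_cases i
      · simp
      · simp [h']
    · rintro ⟨n, rfl⟩
      simp
  rw [this]
  exact (IsLinearSet.closure_of_finite (Set.finite_singleton _)).isSemilinearSet

/-- The PTAR of the problem, without the transitions that are not needed. -/
abbrev auto : PTAR Sym rank 2 where
  Q := Bool
  finQ := inferInstance
  start := false
  Δ := delta
  finΔ := by unfold delta; exact Set.toFinite _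
  C := {s | s 0 = s 1}
  semilinear := semilinear_diag

lemma auto_b : ∀ (n : ℕ) (s : Fin 2 → ℕ), auto.Acc (bpow n leafT) true s ↔ s 0 = s 1 + n := by
  intro n
  induction n with
  | zero =>
    intro s
    rw [bpow, acc_leaf]
    constructor
    · rintro ⟨-, h⟩
      exact h
    · intro h
      exact ⟨⟨fun i => i.elim0, Or.inr (Or.inr (Or.inr (Or.inl rfl)))⟩, h⟩
  | succ n ih =>
    intro s
    rw [bpow, acc_b]
    constructor
    · rintro ⟨f, h1, h2⟩
      have h3 : f = fun _ => (true, some ![0, 1]) := by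
        rcases h1 with h | h | h | h | h
        · simp at h
        · simp only [Prod.mk.injEq, Sigma.mk.injEq, heq_eq_eq, true_and] at h
          exact h
        · simp at h
        · simp at h
        · simp at h
      subst h3
      have h4 := (ih _).mp h2
      simp [next] at h4
      omega
    · intro h
      refine ⟨fun _ => (true, some ![0, 1]), Or.inr (Or.inl rfl), (ih _).mpr ?_⟩
      simp [next]
      omega

lemma auto_a (t : RTree Sym rank) : ∀ (n : ℕ) (s : Fin 2 → ℕ),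
    auto.Acc (apow n t) false s ↔ auto.Acc t false (s + ![n, 0]) := by
  intro n
  induction n with
  | zero =>
    intro s
    have : s + ![0, 0] = s := by
      funext i
      fin_cases i <;> simp
    rw [apow, this]
  | succ n ih =>
    intro s
    have hs : s + ![1, 0] + ![n, 0] = s + ![n + 1, 0] := by
      funext i
      fin_cases i
      · show s 0 + 1 + n = s 0 + (n + 1)
        omega
      · show s 1 + 0 + 0 = s 1 + 0
        rfl
    rw [apow, acc_a]
    constructor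
    · rintro ⟨f, h1, h2⟩
      have h3 : f = fun _ => (false, some ![1, 0]) := by
        rcases h1 with h | h | h | h | h
        · simp only [Prod.mk.injEq, Sigma.mk.injEq, heq_eq_eq, true_and] at h
          exact h
        · simp at h
        · simp at h
        · simp at h
        · simp at h
      subst h3
      have h4 := (ih _).mp h2
      rw [← hs]
      exact h4
    · intro h
      refine ⟨fun _ => (false, some ![1, 0]), Or.inl rfl, (ih _).mpr ?_⟩
      rw [← hs] at h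
      exact h

lemma auto_fork (l r : RTree Sym rank) (s : Fin 2 → ℕ) :
    auto.Acc (forkT l r) false s ↔ auto.Acc l true s ∧ auto.Acc r false 0 := by
  rw [acc_fork]
  constructor
  · rintro ⟨f, h1, h2, h3⟩
    have h4 : f = ![(true, some 0), (false, none)] := by
      rcases h1 with h | h | h | h | h
      · simp at h
      · simp at h
      · simp only [Prod.mk.injEq, Sigma.mk.injEq, heq_eq_eq, true_and] at h
        exact h
      · simp at h
      · simp at h
    subst h4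
    refine ⟨?_, h3⟩
    have h5 : auto.Acc l true (s + 0) := h2
    rwa [add_zero] at h5
  · rintro ⟨h1, h2⟩
    refine ⟨![(true, some 0), (false, none)], Or.inr (Or.inr (Or.inl rfl)), ?_, h2⟩
    show auto.Acc l true (s + 0)
    rwa [add_zero]

lemma auto_tree : ∀ (k : ℕ) (g : ℕ → ℕ × ℕ),
    auto.Acc (tree k g) false 0 ↔ ∀ i < k, (g i).1 = (g i).2 := by
  intro k
  induction k with
  | zero =>
    intro g
    rw [tree, acc_leaf]
    constructor
    · intro _ i hi
      omega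
    · intro _
      exact ⟨⟨fun i => i.elim0, Or.inr (Or.inr (Or.inr (Or.inr rfl)))⟩, rfl⟩
  | succ k ih =>
    intro g
    rw [tree, auto_a, auto_fork, auto_b, ih]
    constructor
    · rintro ⟨h1, h2⟩ i hi
      cases i with
      | zero => simpa using h1
      | succ i => exact h2 i (by omega)
    · intro h
      exact ⟨by simpa using h 0 (by omega), fun i hi => h (i + 1) (by omega)⟩

/-- **Resets help.** There are a ranked alphabet and a tree language over it that is recognized by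
a Parikh tree automaton with reset (of dimension `2`), but by no Parikh tree automaton without
reset, of any dimension. -/
theorem result : ∃ (Γ : Type) (_ : Finite Γ) (rk : Γ → ℕ) (L : Set (RTree Γ rk)),
    PTARRecognizable L ∧ ¬ PTARecognizable L := by
  refine ⟨Sym, inferInstance, rank, auto.lang, ⟨2, by norm_num, auto, rfl⟩, ?_⟩
  rintro ⟨m, -, A, hA, hL⟩
  apply not_pta hA
  · intro k n
    rw [hL]
    exact (auto_tree k _).mpr fun i _ => rfl
  · intro k g h
    rw [hL] at h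
    exact (auto_tree k g).mp h

end Pool.Agent.Results.MP_78a33a_lc.ResetHelps
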